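import Pool.Agent.Lib.MP_252f0c_nt_h71.Defs
import Pool.Agent.Lib.MP_e6e0c1_nt_h58.LogLog

/-!
# The greedy Sidon sequence: covering by the tail, residue classes, compact groups

`A` is the greedy Sidon sequence `1, 2, 4, 8, 13, 21, ...`.  For `M ≥ 1` let `U` be the set of the
positive integers which are not of the form `x + y - z` with `x, y, z ∈ A` all larger than `M`.
The elements `m` of `U` outside `A` are `x + y - z` with one term at most `M` and all terms less
than `m` (greedy rule), the elements of `U ∩ A` are at most `M`; so there are at most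
`2 A(M) A(n) ^ 2` elements `m ≤ n` of `U`, and the mean of `(A(n) / n) ^ 2` over the scales is
small for every Sidon set.  So the sum of `1 / m` over the elements `m ≤ X` of `U` is at most
`C √M log log X`.

It follows that `U` contains no set of positive lower density.  In every compact group `K` with a
homomorphism from `ℤ` with dense range, the set `L` of the limit points of the image of `A` has
`L + L - L = K`.  This gives the statements on residue classes (with the inequality of Plünnecke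
and Ruzsa for the differences) and on irrational rotations.
-/

set_option autoImplicit false

namespace Pool.Agent.MP_252f0c_nt_h71

open Finset Filter Pool.Agent.MP_e6e0c1_nt_h58

open scoped Pointwise

/-! ### existence and uniqueness -/

theorem sidon_insert {S : Set ℕ} (hS : IsSidon S) {B : ℕ} (hB : ∀ x ∈ S, x ≤ B) :
    IsSidon (insert (2 * B + 1) S) := by
  intro x hx y hy z hz w hw h
  rcases Set.mem_insert_iff.1 hx with rfl | hx <;> rcases Set.mem_insert_iff.1 hy with rfl | hy <;>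
    rcases Set.mem_insert_iff.1 hz with rfl | hz <;>
      rcases Set.mem_insert_iff.1 hw with rfl | hw
  all_goals first
    | exact hS x hx y hy z hz w hw h
    | skip
  all_goals
    try have h1 := hB x ‹x ∈ S›
    try have h2 := hB y ‹y ∈ S›
    try have h3 := hB z ‹z ∈ S›
    try have h4 := hB w ‹w ∈ S›
    omega

theorem cover {S : Set ℕ} (hS : IsSidon S) {m : ℕ} (hlt : ∀ x ∈ S, x < m)
    (h : ¬ IsSidon (insert m S)) : ∃ x ∈ S, ∃ y ∈ S, ∃ z ∈ S, x + y = m + z := by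
  by_contra hc
  push Not at hc
  apply h
  intro x hx y hy z hz w hw he
  have key : ∀ u ∈ insert m S, u = m ∨ (u ∈ S ∧ u < m) := by
    intro u hu
    rcases Set.mem_insert_iff.1 hu with h | h
    · exact Or.inl h
    · exact Or.inr ⟨h, hlt u h⟩
  rcases key x hx with ex | ⟨hx, lx⟩ <;> rcases key y hy with ey | ⟨hy, ly⟩ <;>
    rcases key z hz with ez | ⟨hz, lz⟩ <;> rcases key w hw with ew | ⟨hw, lw⟩
  all_goals first
    | omega
    | exact hS x hx y hy z hz w hw he
    | exact absurd (by omega) (hc z hz w hw y hy)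
    | exact absurd (by omega) (hc z hz w hw x hx)
    | exact absurd (by omega) (hc x hx y hy w hw)
    | exact absurd (by omega) (hc x hx y hy z hz)

/-- The next term after the finite stage `S`. -/
noncomputable def nxt (S : Finset ℕ) (b : ℕ) : ℕ :=
  sInf {m : ℕ | b < m ∧ IsSidon (insert m (S : Set ℕ))}

theorem nxt_spec {S : Finset ℕ} {b : ℕ} (hS : IsSidon (S : Set ℕ)) :
    IsLeast {m : ℕ | b < m ∧ IsSidon (insert m (S : Set ℕ))} (nxt S b) := by
  have hne : {m : ℕ | b < m ∧ IsSidon (insert m (S : Set ℕ))}.Nonempty := by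
    refine ⟨2 * (b + S.sup id) + 1, by omega, sidon_insert hS fun x hx => ?_⟩
    have : x ≤ S.sup id := Finset.le_sup (f := id) (Finset.mem_coe.1 hx)
    omega
  exact ⟨Nat.sInf_mem hne, fun m hm => Nat.sInf_le hm⟩

/-- The stages: the set of the terms so far and the last term. -/
noncomputable def stage : ℕ → Finset ℕ × ℕ
  | 0 => ({1}, 1)
  | n + 1 => (insert (nxt (stage n).1 (stage n).2) (stage n).1, nxt (stage n).1 (stage n).2)

theorem stage_sidon : ∀ n, IsSidon ((stage n).1 : Set ℕ)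
  | 0 => by
    intro a ha b hb c hc d hd _
    simp only [stage, Finset.coe_singleton, Set.mem_singleton_iff] at ha hb hc hd
    omega
  | n + 1 => by
    have h := (nxt_spec (b := (stage n).2) (stage_sidon n)).1.2
    simpa only [stage, Finset.coe_insert] using h

theorem stage_image : ∀ n, ((stage n).1 : Set ℕ) = (fun k => (stage k).2) '' Set.Iic n
  | 0 => by
    ext x
    simp only [stage, Finset.coe_singleton, Set.mem_singleton_iff, Set.mem_image, Set.mem_Iic,
      Nat.le_zero, exists_eq_left]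
    exact eq_comm
  | n + 1 => by
    have ih := stage_image n
    have h1 : ((stage (n + 1)).1 : Set ℕ) = insert (stage (n + 1)).2 ((stage n).1 : Set ℕ) := by
      simp only [stage, Finset.coe_insert]
    rw [h1, ih]
    ext x
    simp only [Set.mem_insert_iff, Set.mem_image, Set.mem_Iic]
    constructor
    · rintro (rfl | ⟨k, hk, rfl⟩)
      · exact ⟨n + 1, le_rfl, rfl⟩
      · exact ⟨k, by omega, rfl⟩
    · rintro ⟨k, hk, rfl⟩
      rcases Nat.lt_or_ge n k with h | h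
      · left
        have : k = n + 1 := by omega
        rw [this]
      · exact Or.inr ⟨k, h, rfl⟩

theorem exists_greedy : ∃ a, IsGreedySidon a := by
  refine ⟨fun k => (stage k).2, rfl, fun n => ?_⟩
  have h := nxt_spec (b := (stage n).2) (stage_sidon n)
  rw [stage_image n] at h
  exact h

theorem greedy_unique {a b : ℕ → ℕ} (ha : IsGreedySidon a) (hb : IsGreedySidon b) :
    a = b := by
  have key : ∀ n, ∀ k ≤ n, a k = b k := by
    intro n
    induction n with
    | zero =>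
      intro k hk
      have : k = 0 := by omega
      rw [this, ha.1, hb.1]
    | succ n ih =>
      intro k hk
      rcases Nat.lt_or_ge n k with h | h
      · have hk' : k = n + 1 := by omega
        rw [hk']
        have h1 := ha.2 n
        have h2 := hb.2 n
        have h3 : a '' Set.Iic n = b '' Set.Iic n := Set.image_congr fun k hk => ih k hk
        rw [h3, ih n le_rfl] at h1
        exact h1.unique h2
      · exact ih k h
  exact funext fun n => key n n le_rfl

theorem exists_unique : ∃! a : ℕ → ℕ, IsGreedySidon a := by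
  obtain ⟨a, ha⟩ := exists_greedy
  exact ⟨a, ha, fun b hb => greedy_unique hb ha⟩

/-! ### first facts -/

theorem strictMono {a : ℕ → ℕ} (ha : IsGreedySidon a) : StrictMono a :=
  strictMono_nat_of_lt_succ fun n => (ha.2 n).1.1

theorem one_le {a : ℕ → ℕ} (ha : IsGreedySidon a) (n : ℕ) : 1 ≤ a n := by
  have := (strictMono ha).monotone (Nat.zero_le n)
  rw [ha.1] at this
  exact this

theorem sidon_stage {a : ℕ → ℕ} (ha : IsGreedySidon a) : ∀ n, IsSidon (a '' Set.Iic n)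
  | 0 => by
    rintro _ ⟨i, hi, rfl⟩ _ ⟨j, hj, rfl⟩ _ ⟨k, hk, rfl⟩ _ ⟨l, hl, rfl⟩ _
    simp only [Set.mem_Iic, Nat.le_zero] at hi hj hk hl
    rw [hi, hj, hk, hl]
    exact Or.inl ⟨rfl, rfl⟩
  | n + 1 => by
    have h : a '' Set.Iic (n + 1) = insert (a (n + 1)) (a '' Set.Iic n) := by
      rw [← Set.image_insert_eq]
      congr 1
      ext k
      simp only [Set.mem_Iic, Set.mem_insert_iff]
      omega
    rw [h]
    exact (ha.2 n).1.2

theorem sidon_range {a : ℕ → ℕ} (ha : IsGreedySidon a) : IsSidon (Set.range a) := by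
  rintro _ ⟨i, rfl⟩ _ ⟨j, rfl⟩ _ ⟨k, rfl⟩ _ ⟨l, rfl⟩ h
  exact sidon_stage ha (i + j + k + l) _ ⟨i, Set.mem_Iic.2 (by omega), rfl⟩ _
    ⟨j, Set.mem_Iic.2 (by omega), rfl⟩ _ ⟨k, Set.mem_Iic.2 (by omega), rfl⟩ _
    ⟨l, Set.mem_Iic.2 (by omega), rfl⟩ h

theorem cover_all {a : ℕ → ℕ} (ha : IsGreedySidon a) {m : ℕ} (hm : 1 ≤ m)
    (hA : m ∉ Set.range a) : ∃ x ∈ Set.range a, ∃ y ∈ Set.range a, ∃ z ∈ Set.range a,
      x < m ∧ y < m ∧ z < m ∧ x + y = m + z := by
  classical
  have hex : ∃ k, m ≤ a k := ⟨m, (strictMono ha).le_apply⟩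
  have h1 : m ≤ a (Nat.find hex) := Nat.find_spec hex
  have h0 : Nat.find hex ≠ 0 := by
    intro h
    rw [h, ha.1] at h1
    exact hA ⟨0, by rw [ha.1]; omega⟩
  obtain ⟨n, hn⟩ := Nat.exists_eq_succ_of_ne_zero h0
  have h2 : a n < m := by
    have := Nat.find_min hex (m := n) (by omega)
    omega
  have h3 : m < a (n + 1) := by
    refine lt_of_le_of_ne ?_ fun h => hA ⟨n + 1, h.symm⟩
    rw [hn] at h1
    exact h1
  have h4 : ¬ IsSidon (insert m (a '' Set.Iic n)) := fun h => by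
    have := (ha.2 n).2 ⟨h2, h⟩
    omega
  have h5 : ∀ x ∈ a '' Set.Iic n, x < m := by
    rintro _ ⟨i, hi, rfl⟩
    exact lt_of_le_of_lt ((strictMono ha).monotone hi) h2
  obtain ⟨x, hx, y, hy, z, hz, h⟩ := cover (sidon_stage ha n) h5 h4
  exact ⟨x, Set.image_subset_range _ _ hx, y, Set.image_subset_range _ _ hy, z,
    Set.image_subset_range _ _ hz, h5 x hx, h5 y hy, h5 z hz, h⟩

/-! ### the count -/

theorem count {a : ℕ → ℕ} (ha : IsGreedySidon a) (M N : ℕ) :
    (Exc (Set.range a) M N).card ≤ 2 * (cnt (Set.range a) M * cnt (Set.range a) N ^ 2) := by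
  classical
  have h1A : 1 ∈ Set.range a := ⟨0, ha.1⟩
  have h6 : M < a (M + 1) := lt_of_lt_of_le (Nat.lt_succ_self M) (strictMono ha).le_apply
  have hpos : ∀ x ∈ Set.range a, 1 ≤ x := by
    rintro _ ⟨i, rfl⟩
    exact one_le ha i
  generalize hAdef : Set.range a = A at *
  have hsub : Exc A M N ⊆
      (el A M ×ˢ el A N ×ˢ el A N).image (fun p => p.1 + p.2.1 - p.2.2) ∪
      (el A M ×ˢ el A N ×ˢ el A N).image (fun p => p.2.1 + p.2.2 - p.1) := by
    intro m hm
    rw [Exc, mem_filter, mem_Icc] at hm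
    obtain ⟨⟨hm1, hmN⟩, hmT⟩ := hm
    by_cases hmA : m ∈ A
    · have hmM : m ≤ M := by
        by_contra hc
        push Not at hc
        have haA : a (M + 1) ∈ A := hAdef ▸ Set.mem_range_self _
        exact hmT ⟨m, hmA, a (M + 1), haA, a (M + 1), haA, hc, h6, h6, rfl⟩
      apply mem_union_left
      rw [mem_image]
      refine ⟨(m, 1, 1), ?_, by simp⟩
      simp only [mem_product, mem_el]
      exact ⟨⟨⟨hm1, hmM⟩, hmA⟩, ⟨⟨le_rfl, by omega⟩, h1A⟩, ⟨⟨le_rfl, by omega⟩, h1A⟩⟩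
    · obtain ⟨x, hx, y, hy, z, hz, hxm, hym, hzm, he⟩ := cover_all ha hm1 (by rwa [hAdef])
      rw [hAdef] at hx hy hz
      have px := hpos x hx
      have py := hpos y hy
      have pz := hpos z hz
      by_cases hxM : x ≤ M
      · apply mem_union_left
        rw [mem_image]
        refine ⟨(x, y, z), ?_, by simp only; omega⟩
        simp only [mem_product, mem_el]
        exact ⟨⟨⟨px, hxM⟩, hx⟩, ⟨⟨py, by omega⟩, hy⟩, ⟨⟨pz, by omega⟩, hz⟩⟩
      · by_cases hyM : y ≤ M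
        · apply mem_union_left
          rw [mem_image]
          refine ⟨(y, x, z), ?_, by simp only; omega⟩
          simp only [mem_product, mem_el]
          exact ⟨⟨⟨py, hyM⟩, hy⟩, ⟨⟨px, by omega⟩, hx⟩, ⟨⟨pz, by omega⟩, hz⟩⟩
        · by_cases hzM : z ≤ M
          · apply mem_union_right
            rw [mem_image]
            refine ⟨(z, x, y), ?_, by simp only; omega⟩
            simp only [mem_product, mem_el]
            exact ⟨⟨⟨pz, hzM⟩, hz⟩, ⟨⟨px, by omega⟩, hx⟩, ⟨⟨py, by omega⟩, hy⟩⟩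
          · exact absurd ⟨x, hx, y, hy, z, hz, by omega, by omega, by omega, he⟩ hmT
  refine (card_le_card hsub).trans ((card_union_le _ _).trans ?_)
  have h1 := card_image_le (s := el A M ×ˢ el A N ×ˢ el A N)
    (f := fun p : ℕ × ℕ × ℕ => p.1 + p.2.1 - p.2.2)
  have h2 := card_image_le (s := el A M ×ˢ el A N ×ˢ el A N)
    (f := fun p : ℕ × ℕ × ℕ => p.2.1 + p.2.2 - p.1)
  rw [card_product, card_product, ← cnt_eq, ← cnt_eq] at h1 h2
  have h3 : cnt A M * (cnt A N * cnt A N) = cnt A M * cnt A N ^ 2 := by ring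
  rw [h3] at h1 h2
  omega

/-! ### Abel summation -/

theorem abel (P : ℕ → Prop) [DecidablePred P] (X : ℕ) (hX : 1 ≤ X) :
    ∑ m ∈ (Icc 1 X).filter P, (1 : ℝ) / m ≤ (((Icc 1 X).filter P).card : ℝ) / X +
      ∑ N ∈ Ico 1 X, (((Icc 1 N).filter P).card : ℝ) / (N : ℝ) ^ 2 := by
  induction X, hX using Nat.le_induction with
  | base =>
    rw [Icc_self, Ico_self, sum_empty, filter_singleton]
    split_ifs <;> simp
  | succ X hX ih =>
    rw [sum_Ico_succ_top hX]
    have hX0 : (0 : ℝ) < X := by exact_mod_cast hX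
    have key : (((Icc 1 X).filter P).card : ℝ) / X ≤ (((Icc 1 X).filter P).card : ℝ) / (X + 1) +
        (((Icc 1 X).filter P).card : ℝ) / (X : ℝ) ^ 2 := by
      have h1 : (1 : ℝ) / X ≤ 1 / (X + 1) + 1 / (X : ℝ) ^ 2 := by
        rw [div_add_div _ _ (by positivity) (by positivity), div_le_div_iff₀ hX0 (by positivity)]
        nlinarith
      have h2 := mul_le_mul_of_nonneg_left h1
        (Nat.cast_nonneg (α := ℝ) ((Icc 1 X).filter P).card)
      calc _ = (((Icc 1 X).filter P).card : ℝ) * (1 / X) := by ring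
        _ ≤ _ := h2
        _ = _ := by ring
    have hIcc : Icc 1 (X + 1) = insert (X + 1) (Icc 1 X) := by
      ext k
      simp only [mem_Icc, mem_insert]
      omega
    have hnot : X + 1 ∉ (Icc 1 X).filter P := by
      simp
    rw [hIcc, filter_insert]
    split_ifs with hP
    · rw [sum_insert hnot, card_insert_of_notMem hnot]
      push_cast
      rw [add_div]
      linarith
    · push_cast
      linarith

theorem cnt_le_sqrt {A : Set ℕ} (hA : IsSidon A) (M : ℕ) : (cnt A M : ℝ) ≤ 12 * √M := by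
  refine (pow_le_pow_iff_left₀ (Nat.cast_nonneg _) (by positivity) two_ne_zero).1 ?_
  rw [mul_pow, Real.sq_sqrt (Nat.cast_nonneg M)]
  have := crude hA M
  linarith

theorem log_sum {a : ℕ → ℕ} (ha : IsGreedySidon a) : ∃ C : ℝ, ∀ M X : ℕ, 1 ≤ M → 3 ≤ X →
    ∑ m ∈ Exc (Set.range a) M X, (1 : ℝ) / m ≤ C * √M * Real.log (Real.log X) := by
  classical
  have hA := sidon_range ha
  have hl3 : (1 : ℝ) < Real.log 3 := by
    rw [Real.lt_log_iff_exp_lt (by norm_num)]
    have := Real.exp_one_lt_d9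
    linarith
  have hc0 : 0 < Real.log (Real.log 3) := Real.log_pos hl3
  set c₀ := Real.log (Real.log 3) with hc₀
  have hL : ∀ X : ℕ, 3 ≤ X → c₀ ≤ Real.log (Real.log X) := by
    intro X hX
    have h1 : (3 : ℝ) ≤ X := by exact_mod_cast hX
    exact Real.log_le_log (by linarith) (Real.log_le_log (by norm_num) h1)
  obtain ⟨N₁, hN₁⟩ := eventually_atTop.1 (mean_sq hA one_pos)
  set C₁ : ℝ := (4 / Real.log 2 + 1) + N₁ / c₀ with hC₁
  have hlog2 : 0 < Real.log 2 := Real.log_pos one_lt_two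
  have hC₁0 : 0 ≤ C₁ := by positivity
  have htot : ∀ X : ℕ, 3 ≤ X → ∑ n ∈ Icc 1 X, ((cnt (Set.range a) n : ℝ) / n) ^ 2 ≤
      C₁ * Real.log (Real.log X) := by
    intro X hX
    have h1 := hL X hX
    have h2 : 0 ≤ Real.log (Real.log X) := hc0.le.trans h1
    rw [hC₁, add_mul]
    rcases le_total N₁ X with h | h
    · have h3 := hN₁ X h
      have h4 : 0 ≤ (N₁ : ℝ) / c₀ * Real.log (Real.log X) := by positivity
      linarith
    · have h3 := tot_le (Set.range a) X
      unfold tot at h3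
      have h4 : (X : ℝ) ≤ N₁ := by exact_mod_cast h
      have h5 : (N₁ : ℝ) ≤ N₁ / c₀ * Real.log (Real.log X) := by
        have h6 : (N₁ : ℝ) / c₀ * c₀ ≤ N₁ / c₀ * Real.log (Real.log X) :=
          mul_le_mul_of_nonneg_left h1 (by positivity)
        rwa [div_mul_cancel₀ _ hc0.ne'] at h6
      have h7 : 0 ≤ (4 / Real.log 2 + 1) * Real.log (Real.log X) := by positivity
      linarith
  refine ⟨12 * (288 / c₀ + 2 * C₁), fun M X _ hX => ?_⟩
  have hX0 : (0 : ℝ) < X := by
    have : 0 < X := by omega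
    exact_mod_cast this
  have h1 := abel (· ∉ TailSums (Set.range a) M) X (by omega)
  have h2 : ∀ N : ℕ, ((Exc (Set.range a) M N).card : ℝ) ≤
      2 * ((cnt (Set.range a) M : ℝ) * (cnt (Set.range a) N : ℝ) ^ 2) := by
    intro N
    exact_mod_cast count ha M N
  have h3 : ((Exc (Set.range a) M X).card : ℝ) / X ≤ 288 * cnt (Set.range a) M := by
    rw [div_le_iff₀ hX0]
    have h4 := mul_le_mul_of_nonneg_left (crude hA X)
      (Nat.cast_nonneg (α := ℝ) (cnt (Set.range a) M))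
    have h5 := h2 X
    linarith
  have h4 : ∑ N ∈ Ico 1 X, ((Exc (Set.range a) M N).card : ℝ) / (N : ℝ) ^ 2 ≤
      2 * cnt (Set.range a) M * ∑ n ∈ Icc 1 X, ((cnt (Set.range a) n : ℝ) / n) ^ 2 := by
    rw [mul_sum]
    calc _ ≤ ∑ N ∈ Ico 1 X, 2 * (cnt (Set.range a) M : ℝ) *
          ((cnt (Set.range a) N : ℝ) / N) ^ 2 := by
          refine sum_le_sum fun N hN => ?_
          have hN1 : 0 < N := (mem_Ico.1 hN).1
          have hN0 : (0 : ℝ) < N := by exact_mod_cast hN1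
          rw [div_pow, ← mul_div_assoc]
          refine div_le_div_of_nonneg_right ?_ (by positivity)
          have := h2 N
          linarith
      _ ≤ _ := by
          refine sum_le_sum_of_subset_of_nonneg ?_ fun n _ _ => by positivity
          intro n hn
          rw [mem_Ico] at hn
          rw [mem_Icc]
          omega
  have h5 := htot X hX
  have h6 := hL X hX
  have h7 := cnt_le_sqrt hA M
  have h8 : (288 : ℝ) ≤ 288 / c₀ * Real.log (Real.log X) := by
    have h9 : (288 : ℝ) / c₀ * c₀ ≤ 288 / c₀ * Real.log (Real.log X) :=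
      mul_le_mul_of_nonneg_left h6 (by positivity)
    rwa [div_mul_cancel₀ _ hc0.ne'] at h9
  have h10 : 2 * (cnt (Set.range a) M : ℝ) *
      ∑ n ∈ Icc 1 X, ((cnt (Set.range a) n : ℝ) / n) ^ 2 ≤
      2 * (cnt (Set.range a) M : ℝ) * (C₁ * Real.log (Real.log X)) :=
    mul_le_mul_of_nonneg_left h5 (by positivity)
  have hExc : Exc (Set.range a) M X = (Icc 1 X).filter (· ∉ TailSums (Set.range a) M) := rfl
  have h11 : ∑ m ∈ Exc (Set.range a) M X, (1 : ℝ) / m ≤
      288 * cnt (Set.range a) M + 2 * (cnt (Set.range a) M : ℝ) *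
        (C₁ * Real.log (Real.log X)) := by
    refine h1.trans ?_
    refine (add_le_add h3 (h4.trans h10))
  have h12 : (288 * cnt (Set.range a) M + 2 * (cnt (Set.range a) M : ℝ) *
        (C₁ * Real.log (Real.log X)) : ℝ) =
      cnt (Set.range a) M * (288 + 2 * C₁ * Real.log (Real.log X)) := by ring
  rw [h12] at h11
  have h13 : 0 ≤ Real.log (Real.log X) := hc0.le.trans h6
  have h14 : (0 : ℝ) ≤ 288 + 2 * C₁ * Real.log (Real.log X) := by positivity
  calc _ ≤ _ := h11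
    _ ≤ 12 * √M * (288 + 2 * C₁ * Real.log (Real.log X)) :=
        mul_le_mul_of_nonneg_right h7 h14
    _ ≤ 12 * √M * (288 / c₀ * Real.log (Real.log X) + 2 * C₁ * Real.log (Real.log X)) :=
        mul_le_mul_of_nonneg_left (by linarith) (by positivity)
    _ = _ := by ring

/-- The lower density, with a rate. -/
theorem lower_count {a : ℕ → ℕ} (ha : IsGreedySidon a) :
    ∃ C : ℝ, 0 < C ∧ ∀ M N₀ : ℕ, ∃ N : ℕ, N₀ ≤ N ∧ 3 ≤ N ∧
      ((Exc (Set.range a) M N).card : ℝ) ≤ C * √M * (N / Real.log N) := by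
  have hA := sidon_range ha
  have hlog2 : 0 < Real.log 2 := Real.log_pos one_lt_two
  set l : ℝ := 2 / √(Real.log 2) + 1 with hl
  have hl0 : 0 < l := by positivity
  refine ⟨24 * l ^ 2, by positivity, fun M N₀ => ?_⟩
  obtain ⟨N, hN, h⟩ := lower hA one_pos (max N₀ 3)
  have hN3 : 3 ≤ N := (le_max_right _ _).trans hN
  refine ⟨N, (le_max_left _ _).trans hN, hN3, ?_⟩
  have hN0 : (0 : ℝ) < N := by
    have : 0 < N := by omega
    exact_mod_cast this
  have hln : 0 < Real.log N := Real.log_pos (by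
    have : 1 < N := by omega
    exact_mod_cast this)
  have h1 : ((cnt (Set.range a) N : ℝ) * √(Real.log N / N)) ^ 2 ≤ l ^ 2 :=
    pow_le_pow_left₀ (by positivity) h.le 2
  rw [mul_pow, Real.sq_sqrt (by positivity)] at h1
  have h2 : (cnt (Set.range a) N : ℝ) ^ 2 ≤ l ^ 2 * (N / Real.log N) := by
    have h3 := mul_le_mul_of_nonneg_right h1 (show 0 ≤ N / Real.log N by positivity)
    have h4 : (cnt (Set.range a) N : ℝ) ^ 2 * (Real.log N / N) * (N / Real.log N) =
        (cnt (Set.range a) N : ℝ) ^ 2 := by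
      field_simp
    rwa [h4] at h3
  have h3 : ((Exc (Set.range a) M N).card : ℝ) ≤
      2 * ((cnt (Set.range a) M : ℝ) * (cnt (Set.range a) N : ℝ) ^ 2) := by
    exact_mod_cast count ha M N
  have h4 := cnt_le_sqrt hA M
  have h5 : (cnt (Set.range a) M : ℝ) * (cnt (Set.range a) N : ℝ) ^ 2 ≤
      12 * √M * (l ^ 2 * (N / Real.log N)) :=
    mul_le_mul h4 h2 (by positivity) (by positivity)
  calc _ ≤ _ := h3
    _ ≤ 2 * (12 * √M * (l ^ 2 * (N / Real.log N))) := by linarith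
    _ = _ := by ring

/-! ### residue classes -/

theorem exists_tail {a : ℕ → ℕ} (ha : IsGreedySidon a) {q : ℕ} (hq : 1 ≤ q) {S : Set ℕ}
    (hS : ∀ t : ℕ, ∃ m ∈ S, q * t < m ∧ m ≤ q * (t + 1)) (M : ℕ) :
    ∃ m ∈ TailSums (Set.range a) M, m ∈ S := by
  classical
  by_contra hcon
  push Not at hcon
  choose f hfS hf1 hf2 using hS
  obtain ⟨C, hC, hlow⟩ := lower_count ha
  have hev : ∀ᶠ N : ℕ in atTop, 2 * q * (C * √M) + 1 ≤ Real.log N :=
    (Real.tendsto_log_atTop.comp tendsto_natCast_atTop_atTop).eventually_ge_atTop _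
  obtain ⟨N₁, hN₁⟩ := eventually_atTop.1 hev
  obtain ⟨N, hN, hN3, hcard⟩ := hlow M (max N₁ q)
  have hNq : q ≤ N := (le_max_right _ _).trans hN
  have hlogN := hN₁ N ((le_max_left _ _).trans hN)
  have hsub : (range (N / q)).image f ⊆ Exc (Set.range a) M N := by
    intro m hm
    rw [mem_image] at hm
    obtain ⟨k, hk, rfl⟩ := hm
    rw [mem_range] at hk
    rw [Exc, mem_filter, mem_Icc]
    refine ⟨⟨by have := hf1 k; omega, ?_⟩, fun h => hcon _ h (hfS k)⟩
    have h1 : q * (k + 1) ≤ q * (N / q) := Nat.mul_le_mul_left q hk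
    have h2 := Nat.mul_div_le N q
    have h3 := hf2 k
    omega
  have hmono : StrictMono f := by
    refine strictMono_nat_of_lt_succ fun k => ?_
    have h1 := hf2 k
    have h2 := hf1 (k + 1)
    omega
  have h1 : N / q ≤ (Exc (Set.range a) M N).card := by
    have h2 := card_le_card hsub
    rw [card_image_of_injective _ hmono.injective, card_range] at h2
    exact h2
  have h2 : N ≤ 2 * q * (N / q) := by
    have h3 : N < q * (N / q) + q := by
      have := Nat.div_add_mod N q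
      have := Nat.mod_lt N hq
      omega
    have h4 : q * 1 ≤ q * (N / q) := Nat.mul_le_mul_left q ((Nat.one_le_div_iff hq).2 hNq)
    rw [mul_assoc]
    omega
  have hN0 : (0 : ℝ) < N := by
    have : 0 < N := by omega
    exact_mod_cast this
  have hln : 0 < Real.log N := Real.log_pos (by
    have : 1 < N := by omega
    exact_mod_cast this)
  have h3 : (N : ℝ) ≤ 2 * q * ((N / q : ℕ) : ℝ) := by exact_mod_cast h2
  have h4 : ((N / q : ℕ) : ℝ) ≤ C * √M * (N / Real.log N) :=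
    le_trans (by exact_mod_cast h1) hcard
  have h5 : (N : ℝ) ≤ 2 * q * (C * √M * (N / Real.log N)) :=
    h3.trans (mul_le_mul_of_nonneg_left h4 (by positivity))
  have h6 : 2 * q * (C * √M * (N / Real.log N)) = (2 * q * (C * √M)) / Real.log N * N := by
    ring
  rw [h6] at h5
  have h7 : (2 * q * (C * √M)) / Real.log N < 1 := by
    rw [div_lt_one hln]
    linarith
  have h8 := mul_lt_mul_of_pos_right h7 hN0
  linarith

theorem exists_tail_mod {a : ℕ → ℕ} (ha : IsGreedySidon a) {q : ℕ} (hq : 1 ≤ q)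
    (s M : ℕ) : ∃ m ∈ TailSums (Set.range a) M, m ≡ s [MOD q] := by
  obtain ⟨s', hs1, hsq, hs⟩ : ∃ s', 1 ≤ s' ∧ s' ≤ q ∧ s' ≡ s [MOD q] := by
    rcases Nat.eq_zero_or_pos (s % q) with h | h
    · refine ⟨q, hq, le_rfl, ?_⟩
      rw [Nat.ModEq, Nat.mod_self, h]
    · exact ⟨s % q, h, (Nat.mod_lt _ hq).le, Nat.mod_modEq _ _⟩
  refine exists_tail ha hq (S := {m | m ≡ s [MOD q]}) (fun t => ⟨q * t + s', ?_, by omega, ?_⟩) M
  · have : q * t + s' ≡ 0 + s' [MOD q] :=
      Nat.ModEq.add_right s' ((Nat.modEq_zero_iff_dvd).2 (dvd_mul_right q t))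
    rw [zero_add] at this
    exact this.trans hs
  · rw [mul_add, mul_one]
    omega

theorem exists_bound (A : Set ℕ) {q : ℕ} (hq : 1 ≤ q) :
    ∃ M : ℕ, ∀ x ∈ A, M < x → {w | w ∈ A ∧ w ≡ x [MOD q]}.Infinite := by
  have hfin : (⋃ r ∈ {r | r < q ∧ {w | w ∈ A ∧ w ≡ r [MOD q]}.Finite},
      {w | w ∈ A ∧ w ≡ r [MOD q]}).Finite :=
    Set.Finite.biUnion ((Set.finite_Iio q).subset fun r hr => hr.1) fun r hr => hr.2
  obtain ⟨M, hM⟩ := hfin.bddAbove
  refine ⟨M, fun x hx hMx hc => ?_⟩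
  have hmem : x ∈ ⋃ r ∈ {r | r < q ∧ {w | w ∈ A ∧ w ≡ r [MOD q]}.Finite},
      {w | w ∈ A ∧ w ≡ r [MOD q]} := by
    simp only [Set.mem_iUnion]
    refine ⟨x % q, ⟨Nat.mod_lt _ hq, ?_⟩, hx, (Nat.mod_modEq x q).symm⟩
    exact hc.subset fun w hw => ⟨hw.1, hw.2.trans (Nat.mod_modEq x q)⟩
  have := hM hmem
  omega

theorem classes {a : ℕ → ℕ} (ha : IsGreedySidon a) {q : ℕ} (hq : 1 ≤ q) (s : ℕ) :
    ∃ r₁ r₂ r₃ : ℕ, {x | x ∈ Set.range a ∧ x ≡ r₁ [MOD q]}.Infinite ∧
      {x | x ∈ Set.range a ∧ x ≡ r₂ [MOD q]}.Infinite ∧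
      {x | x ∈ Set.range a ∧ x ≡ r₃ [MOD q]}.Infinite ∧ r₁ + r₂ ≡ s + r₃ [MOD q] := by
  obtain ⟨M, hM⟩ := exists_bound (Set.range a) hq
  obtain ⟨m, ⟨x, hx, y, hy, z, hz, hMx, hMy, hMz, he⟩, hms⟩ := exists_tail_mod ha hq s M
  refine ⟨x, y, z, hM x hx hMx, hM y hy hMy, hM z hz hMz, ?_⟩
  rw [he]
  exact hms.add_right z

theorem diffs_infinite {A : Set ℕ} {q s r₁ r₂ : ℕ}
    (h1 : {x | x ∈ A ∧ x ≡ r₁ [MOD q]}.Infinite) (h2 : {x | x ∈ A ∧ x ≡ r₂ [MOD q]}.Infinite)
    (h : r₁ ≡ s + r₂ [MOD q]) : {d | d ∈ PosDiff A ∧ d ≡ s [MOD q]}.Infinite := by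
  obtain ⟨y, hyA, hy⟩ := h2.nonempty
  have h3 := h1.sdiff (Set.finite_Iic y)
  have h4 : Set.InjOn (fun x => x - y) ({x | x ∈ A ∧ x ≡ r₁ [MOD q]} \ Set.Iic y) := by
    intro u hu v hv huv
    have hu' : ¬ u ≤ y := hu.2
    have hv' : ¬ v ≤ y := hv.2
    simp only at huv
    omega
  refine (h3.image h4).mono ?_
  rintro _ ⟨x, ⟨⟨hxA, hx⟩, hxy⟩, rfl⟩
  have hxy' : y < x := not_le.1 hxy
  refine ⟨⟨Nat.sub_pos_of_lt hxy', x, hxA, y, hyA, Nat.sub_add_cancel hxy'.le⟩, ?_⟩
  refine Nat.ModEq.add_right_cancel' y ?_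
  simp only
  rw [Nat.sub_add_cancel hxy'.le]
  exact hx.trans (h.trans (hy.symm.add_left s))

theorem diffs_many {a : ℕ → ℕ} (ha : IsGreedySidon a) {q : ℕ} (hq : 1 ≤ q) :
    q ^ 3 ≤ {s | s < q ∧ {d | d ∈ PosDiff (Set.range a) ∧ d ≡ s [MOD q]}.Infinite}.ncard ^ 5 := by
  classical
  have : NeZero q := ⟨by omega⟩
  set R : Finset (ZMod q) := univ.filter
    fun r => {x | x ∈ Set.range a ∧ x ≡ r.val [MOD q]}.Infinite with hR
  set D : Finset ℕ := (range q).filter fun s => {d | d ∈ PosDiff (Set.range a) ∧ d ≡ s [MOD q]}.Infinite with hD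
  have hDc : {s | s < q ∧ {d | d ∈ PosDiff (Set.range a) ∧ d ≡ s [MOD q]}.Infinite}.ncard = D.card := by
    rw [← Set.ncard_coe_finset]
    congr 1
    ext s
    simp [hD]
  rw [hDc]
  have hmemR : ∀ r : ℕ, {x | x ∈ Set.range a ∧ x ≡ r [MOD q]}.Infinite → (r : ZMod q) ∈ R := by
    intro r hr
    rw [hR, mem_filter]
    refine ⟨mem_univ _, hr.mono fun x hx => ⟨hx.1, hx.2.trans ?_⟩⟩
    rw [ZMod.val_natCast]
    exact (Nat.mod_modEq r q).symm
  have hRne : R.Nonempty := by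
    obtain ⟨r₀, -, -, h0, -, -, -⟩ := classes ha hq 0
    exact ⟨_, hmemR r₀ h0⟩
  have hcov : R + (R - R) = univ := by
    refine eq_univ_of_forall fun s => ?_
    obtain ⟨r₁, r₂, r₃, h1, h2, h3, h⟩ := classes ha hq s.val
    have h4 : ((r₁ + r₂ : ℕ) : ZMod q) = ((s.val + r₃ : ℕ) : ZMod q) :=
      (ZMod.natCast_eq_natCast_iff _ _ _).2 h
    push_cast at h4
    rw [ZMod.natCast_zmod_val] at h4
    have h5 : s = r₁ + ((r₂ : ZMod q) - r₃) := by
      rw [← add_sub_assoc, h4]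
      ring
    rw [h5]
    exact add_mem_add (hmemR r₁ h1) (sub_mem_sub (hmemR r₂ h2) (hmemR r₃ h3))
  have hRD : (R - R).card ≤ D.card := by
    refine card_le_card_of_injOn ZMod.val ?_ ((ZMod.val_injective q).injOn)
    intro d hd
    rw [mem_coe, Finset.mem_sub] at hd
    obtain ⟨r, hr, r', hr', rfl⟩ := hd
    rw [hR, mem_filter] at hr hr'
    rw [mem_coe, hD, mem_filter, mem_range]
    refine ⟨ZMod.val_lt _, diffs_infinite hr.2 hr'.2 ?_⟩
    rw [← ZMod.natCast_eq_natCast_iff]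
    push_cast
    rw [ZMod.natCast_zmod_val, ZMod.natCast_zmod_val, ZMod.natCast_zmod_val]
    ring
  -- the two inequalities
  have h1 : q ≤ R.card * (R - R).card := by
    have h := card_add_le (s := R) (t := R - R)
    rw [hcov, card_univ, ZMod.card] at h
    exact h
  have h2 : q * R.card ^ 2 ≤ (R - R).card ^ 3 := by
    have h := pluennecke_ruzsa_inequality_nsmul_sub_nsmul_sub hRne R 2 1
    have h3 : (2 • R - 1 • R : Finset (ZMod q)) = univ := by
      rw [one_nsmul, two_nsmul, add_sub_assoc, hcov]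
    rw [h3, card_univ, ZMod.card] at h
    have hR0 : (0 : ℚ≥0) < R.card := by exact_mod_cast hRne.card_pos
    have h4 : ((R - R).card / R.card : ℚ≥0) ^ (2 + 1) * R.card * (R.card : ℚ≥0) ^ 2 =
        ((R - R).card : ℚ≥0) ^ 3 := by
      rw [mul_assoc, ← pow_succ', div_pow, div_mul_cancel₀ _ (pow_ne_zero _ hR0.ne')]
    have h5 : (q : ℚ≥0) * (R.card : ℚ≥0) ^ 2 ≤ ((R - R).card : ℚ≥0) ^ 3 := by
      rw [← h4]
      exact mul_le_mul_of_nonneg_right h (by positivity)
    exact_mod_cast h5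
  have h3 : q ^ 3 ≤ (R - R).card ^ 5 := by
    have hR0 : 0 < R.card ^ 2 := pow_pos hRne.card_pos 2
    refine Nat.le_of_mul_le_mul_right ?_ hR0
    calc q ^ 3 * R.card ^ 2 = q ^ 2 * (q * R.card ^ 2) := by ring
      _ ≤ (R.card * (R - R).card) ^ 2 * (R - R).card ^ 3 :=
          Nat.mul_le_mul (Nat.pow_le_pow_left h1 2) h2
      _ = (R - R).card ^ 5 * R.card ^ 2 := by ring
  exact h3.trans (Nat.pow_le_pow_left hRD 5)

/-! ### limit points in compact groups -/

section compact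

variable {K : Type*} [AddCommGroup K] [TopologicalSpace K] [IsTopologicalAddGroup K]

theorem syndetic [CompactSpace K] {φ : ℤ →+ K} (hφ : DenseRange φ) {U : Set K}
    (hU : IsOpen U) (hne : U.Nonempty) :
    ∃ q : ℕ, 1 ≤ q ∧ ∀ t : ℕ, ∃ m ∈ {m : ℕ | φ m ∈ U}, q * t < m ∧ m ≤ q * (t + 1) := by
  have hcov : ∀ x : K, ∃ j : ℤ, x + φ j ∈ U := by
    intro x
    have hopen : IsOpen ((fun y => x + y) ⁻¹' U) := hU.preimage (by fun_prop)
    have hne' : ((fun y => x + y) ⁻¹' U).Nonempty := by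
      obtain ⟨u, hu⟩ := hne
      exact ⟨-x + u, by simpa using hu⟩
    exact hφ.exists_mem_open hopen hne'
  obtain ⟨J, hJ⟩ := isCompact_univ.elim_finite_subcover (fun j : ℤ => {x : K | x + φ j ∈ U})
    (fun j => hU.preimage (by fun_prop)) (fun x _ => Set.mem_iUnion.2 (hcov x))
  set b : ℕ := J.sup Int.natAbs with hb
  refine ⟨2 * b + 1, by omega, fun t => ?_⟩
  have hx := hJ (Set.mem_univ (φ (((2 * b + 1) * t + b + 1 : ℕ) : ℤ)))
  simp only [Set.mem_iUnion, Set.mem_ofPred_eq] at hx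
  obtain ⟨j, hjJ, hj⟩ := hx
  have hjb : j.natAbs ≤ b := Finset.le_sup (f := Int.natAbs) hjJ
  rw [← map_add] at hj
  generalize hT : (2 * b + 1) * t = T at *
  have hT' : (2 * b + 1) * (t + 1) = T + (2 * b + 1) := by rw [mul_add, hT, mul_one]
  rw [hT']
  refine ⟨(((T + b + 1 : ℕ) : ℤ) + j).toNat, ?_, by omega, by omega⟩
  rw [Set.mem_ofPred_eq, Int.toNat_of_nonneg (by omega)]
  exact hj

theorem compact_cover [CompactSpace K] [T2Space K] {a : ℕ → ℕ} (ha : IsGreedySidon a)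
    {φ : ℤ →+ K} (hφ : DenseRange φ) (k : K) :
    ∃ l₁ ∈ Lim a φ, ∃ l₂ ∈ Lim a φ, ∃ l₃ ∈ Lim a φ, l₁ + l₂ = k + l₃ := by
  set g : ℕ × ℕ × ℕ → K := fun p => φ (a p.1) + φ (a p.2.1) - φ (a p.2.2) with hg
  set F : Filter (ℕ × ℕ × ℕ) := (atTop ×ˢ atTop ×ˢ atTop) ⊓ comap g (nhds k) with hF
  have hFne : F.NeBot := by
    rw [hF, inf_neBot_iff]
    intro s hs t ht
    rw [prod_atTop_atTop_eq, prod_atTop_atTop_eq] at hs
    obtain ⟨⟨i, j, l⟩, h⟩ := mem_atTop_sets.1 hs
    obtain ⟨V, hV, hVt⟩ := mem_comap.1 ht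
    obtain ⟨U, hUV, hU, hkU⟩ := mem_nhds_iff.1 hV
    obtain ⟨q, hq, hq2⟩ := syndetic hφ hU ⟨k, hkU⟩
    obtain ⟨m, ⟨_, ⟨i', rfl⟩, _, ⟨j', rfl⟩, _, ⟨l', rfl⟩, hx, hy, hz, he⟩, hm⟩ :=
      exists_tail ha hq hq2 (a (i + j + l))
    have hi := (strictMono ha).lt_iff_lt.1 hx
    have hj := (strictMono ha).lt_iff_lt.1 hy
    have hl := (strictMono ha).lt_iff_lt.1 hz
    refine ⟨(i', j', l'), h _ ⟨?_, ?_, ?_⟩, hVt ?_⟩
    · show i ≤ i'
      omega
    · show j ≤ j'
      omega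
    · show l ≤ l'
      omega
    · apply hUV
      have h1 : g (i', j', l') = φ m := by
        have h2 : ((a i' : ℤ) + a j') = m + a l' := by exact_mod_cast he
        simp only [hg]
        rw [← map_add, h2, map_add, add_sub_cancel_right]
      rw [h1]
      exact hm
  have hle := Ultrafilter.of_le F
  have hlim : ∀ f : ℕ × ℕ × ℕ → K, ∃ l, Tendsto f (Ultrafilter.of F : Filter (ℕ × ℕ × ℕ))
      (nhds l) := by
    intro f
    obtain ⟨l, -, hl⟩ := isCompact_univ.ultrafilter_le_nhds ((Ultrafilter.of F).map f) (by simp)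
    exact ⟨l, hl⟩
  obtain ⟨l₁, h1⟩ := hlim fun p => φ (a p.1)
  obtain ⟨l₂, h2⟩ := hlim fun p => φ (a p.2.1)
  obtain ⟨l₃, h3⟩ := hlim fun p => φ (a p.2.2)
  have ht : Tendsto id (Ultrafilter.of F : Filter (ℕ × ℕ × ℕ)) (atTop ×ˢ atTop ×ˢ atTop) :=
    hle.trans inf_le_left
  have t1 : Tendsto (fun p : ℕ × ℕ × ℕ => p.1) (Ultrafilter.of F : Filter (ℕ × ℕ × ℕ)) atTop :=
    tendsto_fst.comp ht
  have t2 : Tendsto (fun p : ℕ × ℕ × ℕ => p.2.1) (Ultrafilter.of F : Filter (ℕ × ℕ × ℕ)) atTop :=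
    tendsto_fst.comp (tendsto_snd.comp ht)
  have t3 : Tendsto (fun p : ℕ × ℕ × ℕ => p.2.2) (Ultrafilter.of F : Filter (ℕ × ℕ × ℕ)) atTop :=
    tendsto_snd.comp (tendsto_snd.comp ht)
  refine ⟨l₁, MapClusterPt.of_comp t1 (Tendsto.mapClusterPt h1),
    l₂, MapClusterPt.of_comp t2 (Tendsto.mapClusterPt h2),
    l₃, MapClusterPt.of_comp t3 (Tendsto.mapClusterPt h3), ?_⟩
  have h4 : Tendsto g (Ultrafilter.of F : Filter (ℕ × ℕ × ℕ)) (nhds (l₁ + l₂ - l₃)) :=
    (h1.add h2).sub h3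
  have h5 : Tendsto g (Ultrafilter.of F : Filter (ℕ × ℕ × ℕ)) (nhds k) :=
    tendsto_comap.mono_left (hle.trans inf_le_right)
  have h6 := tendsto_nhds_unique h4 h5
  rw [← h6, sub_add_cancel]

theorem diff_limits {a : ℕ → ℕ} (ha : IsGreedySidon a) {φ : ℤ →+ K} {l₁ l₂ : K}
    (h1 : l₁ ∈ Lim a φ) (h2 : l₂ ∈ Lim a φ) : l₁ - l₂ ∈ DiffLim (Set.range a) φ := by
  intro U hU B
  have hc : Tendsto (fun p : K × K => p.1 - p.2) (nhds (l₁, l₂)) (nhds (l₁ - l₂)) :=
    continuous_sub.tendsto _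
  have h := hc hU
  rw [Filter.mem_map, nhds_prod_eq, mem_prod_iff] at h
  obtain ⟨V₁, hV₁, V₂, hV₂, hV⟩ := h
  have h1' : MapClusterPt l₁ atTop fun n => φ (a n) := h1
  have h2' : MapClusterPt l₂ atTop fun n => φ (a n) := h2
  obtain ⟨j, hj⟩ := (h2'.frequently hV₂).exists
  obtain ⟨i, hi, hiV⟩ := frequently_atTop.1 (h1'.frequently hV₁) (a j + B + 1)
  have h3 : i ≤ a i := (strictMono ha).le_apply
  refine ⟨a i - a j, ⟨by omega, a i, ⟨i, rfl⟩, a j, ⟨j, rfl⟩, by omega⟩, by omega, ?_⟩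
  rw [Nat.cast_sub (by omega), map_sub]
  exact hV (Set.mk_mem_prod hiV hj)

end compact

/-! ### irrational rotations -/

theorem circle_uncountable : ¬ (Set.univ : Set (AddCircle (1 : ℝ))).Countable := by
  intro h
  have h1 : Countable (AddCircle (1 : ℝ)) := Set.countable_univ_iff.1 h
  have h2 : Countable (Set.Ico (0 : ℝ) (0 + 1)) := (AddCircle.equivIco (1 : ℝ) 0).symm.injective.countable
  have h3 : (Set.Ico (0 : ℝ) (0 + 1)).Countable := h2
  rw [Cardinal.Real.Ico_countable_iff] at h3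
  norm_num at h3

theorem rot_dense {α : ℝ} (hα : Irrational α) : DenseRange (rot α) := by
  have h : DenseRange (· • (α : AddCircle (1 : ℝ)) : ℤ → AddCircle (1 : ℝ)) :=
    AddCircle.denseRange_zsmul_coe_iff.2 (by rwa [div_one])
  exact h

theorem circle_limits {a : ℕ → ℕ} (ha : IsGreedySidon a) {α : ℝ} (hα : Irrational α) :
    ¬ (Lim a (rot α)).Countable := by
  intro hc
  have h1 := (hc.prod (hc.prod hc)).image
    fun p : AddCircle (1 : ℝ) × AddCircle (1 : ℝ) × AddCircle (1 : ℝ) => p.1 + p.2.1 - p.2.2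
  refine circle_uncountable (h1.mono fun k _ => ?_)
  obtain ⟨l₁, h1, l₂, h2, l₃, h3, h⟩ := compact_cover ha (rot_dense hα) k
  refine ⟨(l₁, l₂, l₃), ⟨h1, h2, h3⟩, ?_⟩
  simp only
  rw [h, add_sub_cancel_right]

theorem circle_diffs {a : ℕ → ℕ} (ha : IsGreedySidon a) {α : ℝ} (hα : Irrational α) :
    ¬ (DiffLim (Set.range a) (rot α)).Countable := by
  intro hc
  obtain ⟨l₀, h0, -⟩ := compact_cover ha (rot_dense hα) 0
  refine circle_limits ha hα ((hc.image fun d => d + l₀).mono fun l hl => ?_)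
  exact ⟨l - l₀, diff_limits ha hl h0, sub_add_cancel l l₀⟩

/-! ### sums and differences of two elements of the difference set -/

theorem cover_shift {a : ℕ → ℕ} (ha : IsGreedySidon a) {n w : ℕ} (hn : 1 ≤ n)
    (h : n + w ∉ Set.range a) : ∃ x ∈ Set.range a, ∃ y ∈ Set.range a, ∃ z ∈ Set.range a,
      z < x ∧ x ≤ y ∧ y < n + w ∧ x + y = n + w + z := by
  obtain ⟨x, hx, y, hy, z, hz, hxm, hym, hzm, he⟩ := cover_all ha (show 1 ≤ n + w by omega) h
  rcases le_total x y with hxy | hxy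
  · exact ⟨x, hx, y, hy, z, hz, by omega, hxy, hym, he⟩
  · exact ⟨y, hy, x, hx, z, hz, by omega, hxy, hxm, by omega⟩

theorem inj_aux {A : Set ℕ} (hA : IsSidon A) {w v y y' : ℕ} (hw : w ∈ A) (hv : v ∈ A)
    (hy : y ∈ A) (hy' : y' ∈ A) (hne : y ≠ w) (h : y + v = y' + w) : w = v := by
  rcases hA y hy v hv y' hy' w hw h with ⟨-, h1⟩ | ⟨h1, -⟩
  · exact h1.symm
  · exact absurd h1 hne

theorem sum_two {a : ℕ → ℕ} (ha : IsGreedySidon a) {n : ℕ} (hn : 1 ≤ n) :
    cnt (Set.range a) n ≤ {d | d ∈ PosDiff (Set.range a) ∧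
      ∃ e ∈ PosDiff (Set.range a), d + e = n}.ncard + 1 := by
  classical
  have hA := sidon_range ha
  have hpos : ∀ z ∈ Set.range a, 1 ≤ z := by
    rintro _ ⟨i, rfl⟩
    exact one_le ha i
  generalize hAdef : Set.range a = A at *
  set G := (el A n).filter fun w => n + w ∉ A with hG
  have hGmem : ∀ w, w ∈ G ↔ ((1 ≤ w ∧ w ≤ n) ∧ w ∈ A) ∧ n + w ∉ A := by
    intro w
    rw [hG, mem_filter, mem_el]
  have hcov : ∀ w, w ∈ G → ∃ y ∈ A, w < y ∧ y - w ∈ PosDiff A ∧
      ∃ e ∈ PosDiff A, (y - w) + e = n := by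
    intro w hw
    obtain ⟨⟨⟨hw1, hwn⟩, hwA⟩, hwn'⟩ := (hGmem w).1 hw
    obtain ⟨x, hx, y, hy, z, hz, h1, h2, h3, h4⟩ := cover_shift ha hn (by rwa [hAdef])
    rw [hAdef] at hx hy hz
    have hz1 := hpos z hz
    have hwy : w < y := by omega
    exact ⟨y, hy, hwy, ⟨by omega, y, hy, w, hwA, by omega⟩, x - z,
      ⟨by omega, x, hx, z, hz, by omega⟩, by omega⟩
  choose! f hfA hfw hfd hfe using hcov
  have hinj : Set.InjOn (fun w => f w - w) (G : Set ℕ) := by
    intro w hw v hv hwv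
    have h1 := hfw w hw
    have h2 := hfw v hv
    simp only at hwv
    exact inj_aux hA ((hGmem w).1 hw).1.2 ((hGmem v).1 hv).1.2 (hfA w hw) (hfA v hv) h1.ne'
      (by omega)
  have hfin : {d | d ∈ PosDiff A ∧ ∃ e ∈ PosDiff A, d + e = n}.Finite :=
    (Set.finite_Iic n).subset fun d hd => by
      obtain ⟨-, e, -, he⟩ := hd
      rw [Set.mem_Iic]
      omega
  have h1 : G.card ≤ {d | d ∈ PosDiff A ∧ ∃ e ∈ PosDiff A, d + e = n}.ncard := by
    rw [← card_image_of_injOn hinj, ← Set.ncard_coe_finset]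
    refine Set.ncard_le_ncard ?_ hfin
    intro d hd
    rw [mem_coe, mem_image] at hd
    obtain ⟨w, hw, rfl⟩ := hd
    exact ⟨hfd w hw, hfe w hw⟩
  have h2 : ((el A n).filter fun w => ¬ (n + w ∉ A)).card ≤ 1 := by
    rw [card_le_one]
    intro w hw v hv
    rw [mem_filter, mem_el, not_not] at hw hv
    rcases hA (n + w) hw.2 v hv.1.2 (n + v) hv.2 w hw.1.2 (by omega) with ⟨h, -⟩ | ⟨h, -⟩ <;> omega
  have h3 := card_filter_add_card_filter_not (s := el A n) (fun w => n + w ∉ A)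
  rw [← hG] at h3
  rw [cnt_eq]
  omega

theorem diff_two {a : ℕ → ℕ} (ha : IsGreedySidon a) {n : ℕ} (hn : 1 ≤ n) :
    ∃ c : ℕ, ∀ N : ℕ, cnt (Set.range a) N ≤ {d | d ≤ N ∧ d ∈ PosDiff (Set.range a) ∧
      d + n ∈ PosDiff (Set.range a)}.ncard + c := by
  classical
  have hA := sidon_range ha
  have hpos : ∀ z ∈ Set.range a, 1 ≤ z := by
    rintro _ ⟨i, rfl⟩
    exact one_le ha i
  generalize hAdef : Set.range a = A at *
  have hfin : ∀ N, {d | d ≤ N ∧ d ∈ PosDiff A ∧ d + n ∈ PosDiff A}.Finite := fun N =>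
    (Set.finite_Iic N).subset fun d hd => hd.1
  by_cases hnD : n ∈ PosDiff A
  · obtain ⟨-, x₀, hx₀, z₀, hz₀, h0⟩ := hnD
    refine ⟨cnt A x₀, fun N => ?_⟩
    set G := (el A N).filter fun w => x₀ < w with hG
    have hinj : Set.InjOn (fun w => w - x₀) (G : Set ℕ) := by
      intro w hw v hv hwv
      rw [mem_coe, hG, mem_filter] at hw hv
      simp only at hwv
      omega
    have h1 : G.card ≤ {d | d ≤ N ∧ d ∈ PosDiff A ∧ d + n ∈ PosDiff A}.ncard := by
      rw [← card_image_of_injOn hinj, ← Set.ncard_coe_finset]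
      refine Set.ncard_le_ncard ?_ (hfin N)
      intro d hd
      rw [mem_coe, mem_image] at hd
      obtain ⟨w, hw, rfl⟩ := hd
      rw [hG, mem_filter, mem_el] at hw
      obtain ⟨⟨⟨hw1, hwN⟩, hwA⟩, hxw⟩ := hw
      exact ⟨by omega, ⟨by omega, w, hwA, x₀, hx₀, by omega⟩,
        ⟨by omega, w, hwA, z₀, hz₀, by omega⟩⟩
    have h2 : ((el A N).filter fun w => ¬ x₀ < w).card ≤ cnt A x₀ := by
      rw [cnt_eq]
      refine card_le_card fun w hw => ?_
      rw [mem_filter, mem_el] at hw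
      rw [mem_el]
      exact ⟨⟨hw.1.1.1, by omega⟩, hw.1.2⟩
    have h3 := card_filter_add_card_filter_not (s := el A N) (fun w => x₀ < w)
    rw [← hG] at h3
    rw [cnt_eq A N]
    omega
  · refine ⟨n, fun N => ?_⟩
    have hcov : ∀ w, w ∈ el A N → ∃ y ∈ A, y ≠ w ∧ y < n + w ∧ (y < w →
        w - y + n ∈ PosDiff A) := by
      intro w hw
      obtain ⟨⟨hw1, hwN⟩, hwA⟩ := mem_el.1 hw
      have hnw : n + w ∉ Set.range a := by
        rw [hAdef]
        exact fun h => hnD ⟨hn, n + w, h, w, hwA, rfl⟩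
      obtain ⟨x, hx, y, hy, z, hz, h1, h2, h3, h4⟩ := cover_shift ha hn hnw
      rw [hAdef] at hx hy hz
      refine ⟨y, hy, ?_, h3, fun h => ⟨by omega, x, hx, z, hz, by omega⟩⟩
      rintro rfl
      exact hnD ⟨hn, x, hx, z, hz, by omega⟩
    choose! f hfA hfne hflt hfd using hcov
    have h1 : ((el A N).filter fun w => f w < w).card ≤
        {d | d ≤ N ∧ d ∈ PosDiff A ∧ d + n ∈ PosDiff A}.ncard := by
      have hinj : Set.InjOn (fun w => w - f w) (((el A N).filter fun w => f w < w) : Set ℕ) := by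
        intro w hw v hv hwv
        rw [mem_coe, mem_filter] at hw hv
        simp only at hwv
        have hwA := (mem_el.1 hw.1).2
        have hvA := (mem_el.1 hv.1).2
        exact inj_aux hA hwA hvA (hfA w hw.1) (hfA v hv.1) (hfne w hw.1) (by omega)
      rw [← card_image_of_injOn hinj, ← Set.ncard_coe_finset]
      refine Set.ncard_le_ncard ?_ (hfin N)
      intro d hd
      rw [mem_coe, mem_image] at hd
      obtain ⟨w, hw, rfl⟩ := hd
      rw [mem_filter] at hw
      obtain ⟨⟨hw1, hwN⟩, hwA⟩ := mem_el.1 hw.1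
      exact ⟨by omega, ⟨by omega, w, hwA, f w, hfA w hw.1, by omega⟩, hfd w hw.1 hw.2⟩
    have h2 : ((el A N).filter fun w => ¬ f w < w).card ≤ n := by
      have hinj : Set.InjOn (fun w => f w - w) (((el A N).filter fun w => ¬ f w < w) : Set ℕ) := by
        intro w hw v hv hwv
        rw [mem_coe, mem_filter] at hw hv
        simp only at hwv
        have hwA := (mem_el.1 hw.1).2
        have hvA := (mem_el.1 hv.1).2
        exact inj_aux hA hwA hvA (hfA w hw.1) (hfA v hv.1) (hfne w hw.1) (by omega)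
      rw [← card_image_of_injOn hinj]
      calc _ ≤ (range n).card := by
            refine card_le_card fun d hd => ?_
            rw [mem_image] at hd
            obtain ⟨w, hw, rfl⟩ := hd
            rw [mem_filter] at hw
            have := hflt w hw.1
            rw [mem_range]
            omega
        _ = n := card_range n
    have h3 := card_filter_add_card_filter_not (s := el A N) (fun w => f w < w)
    rw [cnt_eq A N]
    omega

end Pool.Agent.MP_252f0c_nt_h71
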