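import Pool.Agent.Lib.MP_252f0c_nt_h71.NumDefs
import Pool.Agent.Lib.MP_252f0c_nt_h71.Tail

/-!
# The difference set of the greedy Sidon sequence: residue classes

Let `R` be the set of the classes modulo `q` which contain infinitely many terms of `A`, and `S` the
set of the classes of the terms in `[1, q]`.  Then `|R| ^ 3 ≥ q` (covering by the tail) and
`|S| ^ 3 ≥ q` (greedy rule), all classes in `R - S` contain infinitely many elements of `A - A`, and
every nonzero class has at most two representations as a difference of two elements of `S`.  By the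
inequality of Cauchy and Schwarz `|R| |S| ^ 2 ≤ |R - S| (|S| + 2 |R|)`.
-/

set_option autoImplicit false

namespace Pool.Agent.MP_252f0c_nt_h71

open Finset Filter Pool.Agent.MP_e6e0c1_nt_h58

open scoped Pointwise Combinatorics.Additive

theorem diffs_infinite' {A : Set ℕ} {q s r y : ℕ}
    (h1 : {x | x ∈ A ∧ x ≡ r [MOD q]}.Infinite) (hyA : y ∈ A)
    (h : r ≡ s + y [MOD q]) : {d | d ∈ PosDiff A ∧ d ≡ s [MOD q]}.Infinite := by
  have h3 := h1.sdiff (Set.finite_Iic y)
  have h4 : Set.InjOn (fun x => x - y) ({x | x ∈ A ∧ x ≡ r [MOD q]} \ Set.Iic y) := by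
    intro u hu v hv huv
    have hu' : ¬ u ≤ y := hu.2
    have hv' : ¬ v ≤ y := hv.2
    simp only at huv
    omega
  refine (h3.image h4).mono ?_
  rintro _ ⟨x, ⟨⟨hxA, hx⟩, hxy⟩, rfl⟩
  have hxy' : y < x := not_le.1 hxy
  refine ⟨⟨Nat.sub_pos_of_lt hxy', x, hxA, y, hyA, Nat.sub_add_cancel hxy'.le⟩, ?_⟩
  refine Nat.ModEq.add_right_cancel' y ?_
  simp only
  rw [Nat.sub_add_cancel hxy'.le]
  exact hx.trans h

theorem cube_le {a : ℕ → ℕ} (ha : IsGreedySidon a) (q : ℕ) : q ≤ cnt (Set.range a) q ^ 3 := by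
  classical
  have h1A : 1 ∈ Set.range a := ⟨0, ha.1⟩
  have hpos : ∀ z ∈ Set.range a, 1 ≤ z := by
    rintro _ ⟨i, rfl⟩
    exact one_le ha i
  have hsub : Icc 1 q ⊆ (el (Set.range a) q ×ˢ el (Set.range a) q ×ˢ el (Set.range a) q).image
      (fun p => p.1 + p.2.1 - p.2.2) := by
    intro m hm
    rw [mem_Icc] at hm
    rw [mem_image]
    by_cases hmA : m ∈ Set.range a
    · refine ⟨(m, 1, 1), ?_, by simp⟩
      simp only [mem_product, mem_el]
      exact ⟨⟨hm, hmA⟩, ⟨⟨le_rfl, by omega⟩, h1A⟩, ⟨⟨le_rfl, by omega⟩, h1A⟩⟩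
    · obtain ⟨x, hx, y, hy, z, hz, hxm, hym, hzm, he⟩ := cover_all ha hm.1 hmA
      refine ⟨(x, y, z), ?_, by simp only; omega⟩
      simp only [mem_product, mem_el]
      exact ⟨⟨⟨hpos x hx, by omega⟩, hx⟩, ⟨⟨hpos y hy, by omega⟩, hy⟩, ⟨⟨hpos z hz, by omega⟩, hz⟩⟩
  have h1 := (card_le_card hsub).trans card_image_le
  rw [Nat.card_Icc, card_product, card_product, ← cnt_eq] at h1
  calc q = q + 1 - 1 := rfl
    _ ≤ _ := h1
    _ = _ := by ring

theorem pairs_le_two {A : Set ℕ} (hA : IsSidon A) {q : ℕ} [NeZero q] {d : ZMod q} (hd : d ≠ 0) :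
    ((el A q ×ˢ el A q).filter fun p => (p.2 : ZMod q) - (p.1 : ZMod q) = d).card ≤ 2 := by
  classical
  have hcard : (univ : Finset Bool).card = 2 := by simp
  rw [← hcard]
  refine card_le_card_of_injOn (fun p => decide (p.1 < p.2)) (fun _ _ => mem_coe.2 (mem_univ _)) ?_
  intro p hp p' hp' hpp
  rw [mem_coe, mem_filter, mem_product, mem_el, mem_el] at hp hp'
  obtain ⟨⟨⟨⟨hp1, hp1q⟩, hp1A⟩, ⟨⟨hp2, hp2q⟩, hp2A⟩⟩, hpd⟩ := hp
  obtain ⟨⟨⟨⟨hp1', hp1q'⟩, hp1A'⟩, ⟨⟨hp2', hp2q'⟩, hp2A'⟩⟩, hpd'⟩ := hp'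
  have hne : p.1 ≠ p.2 := by
    intro h
    rw [h, sub_self] at hpd
    exact hd hpd.symm
  have hne' : p'.1 ≠ p'.2 := by
    intro h
    rw [h, sub_self] at hpd'
    exact hd hpd'.symm
  have hiff : p.1 < p.2 ↔ p'.1 < p'.2 := by
    simpa using hpp
  have key : p.2 + p'.1 = p'.2 + p.1 := by
    rcases lt_or_gt_of_ne hne with h | h
    · have h' := hiff.1 h
      have e : ((p.2 - p.1 : ℕ) : ZMod q) = ((p'.2 - p'.1 : ℕ) : ZMod q) := by
        rw [Nat.cast_sub h.le, Nat.cast_sub h'.le, hpd, hpd']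
      have e2 := ((ZMod.natCast_eq_natCast_iff _ _ _).1 e).eq_of_lt_of_lt
        (show p.2 - p.1 < q by omega) (show p'.2 - p'.1 < q by omega)
      omega
    · have h' : p'.2 < p'.1 := by
        have : ¬ p'.1 < p'.2 := fun h3 => absurd (hiff.2 h3) (by omega)
        omega
      have e : ((p.1 - p.2 : ℕ) : ZMod q) = ((p'.1 - p'.2 : ℕ) : ZMod q) := by
        rw [Nat.cast_sub h.le, Nat.cast_sub h'.le, ← neg_sub, hpd, ← hpd', neg_sub]
      have e2 := ((ZMod.natCast_eq_natCast_iff _ _ _).1 e).eq_of_lt_of_lt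
        (show p.1 - p.2 < q by omega) (show p'.1 - p'.2 < q by omega)
      omega
  rcases hA p.2 hp2A p'.1 hp1A' p'.2 hp2A' p.1 hp1A key with ⟨h1, h2⟩ | ⟨h1, -⟩
  · exact Prod.ext h2.symm h1
  · exact absurd h1.symm hne

theorem energy_le {A : Set ℕ} (hA : IsSidon A) {q : ℕ} [NeZero q] (R : Finset (ZMod q)) :
    E[R, (el A q).image fun s : ℕ => -(s : ZMod q)] ≤
      R.card * cnt A q + 2 * R.card ^ 2 := by
  classical
  set T : Finset (ZMod q) := (el A q).image fun s : ℕ => -(s : ZMod q) with hT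
  have hTc : T.card ≤ cnt A q := by
    rw [cnt_eq]
    exact card_image_le
  have h0 : E[R, T] = ∑ p ∈ R ×ˢ R, ((T ×ˢ T).filter fun t => p.1 + t.1 = p.2 + t.2).card := by
    rw [addEnergy, card_filter, sum_product]
    exact sum_congr rfl fun p _ => (card_filter _ _).symm
  have h1 : ∀ p ∈ R ×ˢ R, ((T ×ˢ T).filter fun t => p.1 + t.1 = p.2 + t.2).card ≤
      2 + if p.1 = p.2 then cnt A q else 0 := by
    intro p _
    split_ifs with h
    · have : ((T ×ˢ T).filter fun t => p.1 + t.1 = p.2 + t.2).card ≤ T.card := by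
        refine card_le_card_of_injOn (fun t => t.1) ?_ ?_
        · intro t ht
          rw [mem_coe, mem_filter, mem_product] at ht
          exact mem_coe.2 ht.1.1
        · intro t ht t' ht' htt
          rw [mem_coe, mem_filter] at ht ht'
          have e1 : t.1 = t.2 := by
            have := ht.2
            rw [h] at this
            exact add_left_cancel this
          have e2 : t'.1 = t'.2 := by
            have := ht'.2
            rw [h] at this
            exact add_left_cancel this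
          simp only at htt
          exact Prod.ext htt (by rw [← e1, ← e2, htt])
      omega
    · rw [add_zero]
      have hd : p.2 - p.1 ≠ 0 := fun h2 => h (sub_eq_zero.1 h2).symm
      refine le_trans ?_ (pairs_le_two hA hd)
      refine le_trans (card_le_card ?_) (card_image_le (f := fun s : ℕ × ℕ =>
        ((-(s.1 : ZMod q), -(s.2 : ZMod q)) : ZMod q × ZMod q)))
      intro t ht
      rw [mem_filter, mem_product, hT, mem_image, mem_image] at ht
      obtain ⟨⟨⟨s₁, hs1, e1⟩, ⟨s₂, hs2, e2⟩⟩, he⟩ := ht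
      rw [mem_image]
      refine ⟨(s₁, s₂), ?_, Prod.ext e1 e2⟩
      rw [mem_filter, mem_product]
      refine ⟨⟨hs1, hs2⟩, ?_⟩
      rw [← e1, ← e2] at he
      simp only
      linear_combination he
  rw [h0]
  refine (sum_le_sum h1).trans ?_
  rw [sum_add_distrib, sum_const, card_product, smul_eq_mul, ← sum_filter, sum_const,
    smul_eq_mul]
  have h2 : ((R ×ˢ R).filter fun p => p.1 = p.2).card ≤ R.card := by
    refine card_le_card_of_injOn (fun t => t.1) ?_ ?_
    · intro t ht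
      rw [mem_coe, mem_filter, mem_product] at ht
      exact mem_coe.2 ht.1.1
    · intro t ht t' ht' htt
      rw [mem_coe, mem_filter] at ht ht'
      simp only at htt
      exact Prod.ext htt (by rw [← ht.2, ← ht'.2, htt])
  have h3 := Nat.mul_le_mul_right (cnt A q) h2
  have h4 : R.card * R.card * 2 = 2 * R.card ^ 2 := by ring
  omega

theorem final_ineq {q r s c : ℕ} (hr : q ≤ r ^ 3) (hs : q ≤ s ^ 3) (hr0 : 0 < r)
    (h : r ^ 2 * s ^ 2 ≤ c * (r * s + 2 * r ^ 2)) : q * s ^ 3 ≤ 27 * c ^ 3 := by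
  have h1 : r * s ^ 2 ≤ c * (s + 2 * r) := by
    refine Nat.le_of_mul_le_mul_left ?_ hr0
    calc r * (r * s ^ 2) = r ^ 2 * s ^ 2 := by ring
      _ ≤ c * (r * s + 2 * r ^ 2) := h
      _ = r * (c * (s + 2 * r)) := by ring
  obtain ⟨x, hx0, hx⟩ : ∃ x : ℝ, 0 ≤ x ∧ x ^ 3 = q :=
    ⟨(q : ℝ) ^ ((1 : ℝ) / 3), by positivity, by
      rw [← Real.rpow_natCast, ← Real.rpow_mul (Nat.cast_nonneg q)]
      norm_num⟩
  have hxr : x ≤ r := by
    refine (pow_le_pow_iff_left₀ hx0 (Nat.cast_nonneg r) (three_ne_zero)).1 ?_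
    rw [hx]
    exact_mod_cast hr
  have hxs : x ≤ s := by
    refine (pow_le_pow_iff_left₀ hx0 (Nat.cast_nonneg s) (three_ne_zero)).1 ?_
    rw [hx]
    exact_mod_cast hs
  have h1' : (r : ℝ) * (s : ℝ) ^ 2 ≤ c * (s + 2 * r) := by exact_mod_cast h1
  have hr0' : (0 : ℝ) < r := by exact_mod_cast hr0
  have hs0 : (0 : ℝ) ≤ s := Nat.cast_nonneg s
  have key : (s : ℝ) * x ≤ 3 * c := by
    have h2 : 0 < (s : ℝ) + 2 * r := by positivity
    have h3 : (s : ℝ) * x * (s + 2 * r) ≤ 3 * (r * (s : ℝ) ^ 2) := by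
      have h4 : x * s ≤ r * s := mul_le_mul_of_nonneg_right hxr hs0
      have h5 : x * (2 * r) ≤ s * (2 * r) := mul_le_mul_of_nonneg_right hxs (by positivity)
      have h6 : x * (s + 2 * r) ≤ 3 * (r * s) := by linarith
      have h7 := mul_le_mul_of_nonneg_left h6 hs0
      calc (s : ℝ) * x * (s + 2 * r) = s * (x * (s + 2 * r)) := by ring
        _ ≤ s * (3 * (r * s)) := h7
        _ = _ := by ring
    refine le_of_mul_le_mul_right ?_ h2
    calc (s : ℝ) * x * (s + 2 * r) ≤ 3 * (r * (s : ℝ) ^ 2) := h3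
      _ ≤ 3 * (c * (s + 2 * r)) := by linarith
      _ = _ := by ring
  have h8 : ((s : ℝ) * x) ^ 3 ≤ (3 * c) ^ 3 := pow_le_pow_left₀ (by positivity) key 3
  rw [mul_pow, hx, mul_pow] at h8
  have h9 : (q : ℝ) * (s : ℝ) ^ 3 ≤ 27 * (c : ℝ) ^ 3 := by
    have : (3 : ℝ) ^ 3 = 27 := by norm_num
    rw [this] at h8
    linarith
  exact_mod_cast h9

theorem classes_many {a : ℕ → ℕ} (ha : IsGreedySidon a) {q : ℕ} (hq : 1 ≤ q) :
    q * cnt (Set.range a) q ^ 3 ≤ 27 * numClasses (Set.range a) q ^ 3 := by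
  classical
  have hA := sidon_range ha
  have : NeZero q := ⟨by omega⟩
  set R : Finset (ZMod q) := univ.filter
    fun r => {x | x ∈ Set.range a ∧ x ≡ r.val [MOD q]}.Infinite with hR
  set D : Finset ℕ := (range q).filter
    fun s => {d | d ∈ PosDiff (Set.range a) ∧ d ≡ s [MOD q]}.Infinite with hD
  set T : Finset (ZMod q) := (el (Set.range a) q).image fun s : ℕ => -(s : ZMod q) with hT
  have hDc : numClasses (Set.range a) q = D.card := by
    rw [numClasses, ← Set.ncard_coe_finset]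
    congr 1
    ext s
    simp [hD]
  rw [hDc]
  have hmemR : ∀ r : ℕ, {x | x ∈ Set.range a ∧ x ≡ r [MOD q]}.Infinite → (r : ZMod q) ∈ R := by
    intro r hr
    rw [hR, mem_filter]
    refine ⟨mem_univ _, hr.mono fun x hx => ⟨hx.1, hx.2.trans ?_⟩⟩
    rw [ZMod.val_natCast]
    exact (Nat.mod_modEq r q).symm
  have hRne : R.Nonempty := by
    obtain ⟨r₀, -, -, h0, -, -, -⟩ := classes ha hq 0
    exact ⟨_, hmemR r₀ h0⟩
  have hcov : R + (R - R) = univ := by
    refine eq_univ_of_forall fun s => ?_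
    obtain ⟨r₁, r₂, r₃, h1, h2, h3, h⟩ := classes ha hq s.val
    have h4 : ((r₁ + r₂ : ℕ) : ZMod q) = ((s.val + r₃ : ℕ) : ZMod q) :=
      (ZMod.natCast_eq_natCast_iff _ _ _).2 h
    push_cast at h4
    rw [ZMod.natCast_zmod_val] at h4
    have h5 : s = r₁ + ((r₂ : ZMod q) - r₃) := by
      rw [← add_sub_assoc, h4]
      ring
    rw [h5]
    exact add_mem_add (hmemR r₁ h1) (sub_mem_sub (hmemR r₂ h2) (hmemR r₃ h3))
  have hr3 : q ≤ R.card ^ 3 := by
    have h := card_add_le (s := R) (t := R - R)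
    rw [hcov, card_univ, ZMod.card] at h
    have h2 := card_sub_le (s := R) (t := R)
    calc q ≤ R.card * (R - R).card := h
      _ ≤ R.card * (R.card * R.card) := Nat.mul_le_mul_left _ h2
      _ = _ := by ring
  have hTc : T.card = cnt (Set.range a) q := by
    rw [cnt_eq, hT]
    refine card_image_of_injOn ?_
    intro u hu v hv huv
    rw [mem_coe, mem_el] at hu hv
    simp only [neg_inj] at huv
    have h1 := (ZMod.natCast_eq_natCast_iff _ _ _).1 huv
    rcases le_total u v with h | h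
    · have h2 := (Nat.modEq_iff_dvd' h).1 h1
      rcases Nat.eq_zero_or_pos (v - u) with h3 | h3
      · omega
      · have := Nat.le_of_dvd h3 h2
        omega
    · have h2 := (Nat.modEq_iff_dvd' h).1 h1.symm
      rcases Nat.eq_zero_or_pos (u - v) with h3 | h3
      · omega
      · have := Nat.le_of_dvd h3 h2
        omega
  have hRD : (R + T).card ≤ D.card := by
    refine card_le_card_of_injOn ZMod.val ?_ ((ZMod.val_injective q).injOn)
    intro d hd
    rw [mem_coe, Finset.mem_add] at hd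
    obtain ⟨r, hr, t, ht, rfl⟩ := hd
    rw [hR, mem_filter] at hr
    rw [hT, mem_image] at ht
    obtain ⟨y, hy, rfl⟩ := ht
    rw [mem_el] at hy
    rw [mem_coe, hD, mem_filter, mem_range]
    refine ⟨ZMod.val_lt _, diffs_infinite' hr.2 hy.2 ?_⟩
    rw [← ZMod.natCast_eq_natCast_iff]
    push_cast
    rw [ZMod.natCast_zmod_val, ZMod.natCast_zmod_val]
    ring
  have hen := energy_le hA R
  have hcs := le_card_add_mul_addEnergy R T
  rw [hTc] at hcs
  refine final_ineq hr3 (cube_le ha q) hRne.card_pos ?_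
  calc R.card ^ 2 * cnt (Set.range a) q ^ 2 ≤ (R + T).card * E[R, T] := hcs
    _ ≤ D.card * (R.card * cnt (Set.range a) q + 2 * R.card ^ 2) := Nat.mul_le_mul hRD hen

end Pool.Agent.MP_252f0c_nt_h71
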