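import Pool.Agent.Lib.MP_e6e0c1_nt_h58.Energy

/-!
# The greedy Sidon sequence: definitions

`IsSidon` and the counting function `cnt` are in the imported file.
-/

set_option autoImplicit false

namespace Pool.Agent.MP_252f0c_nt_h71

open Finset Filter Pool.Agent.MP_e6e0c1_nt_h58

/-- `a` is the greedy Sidon sequence: `a 0 = 1`, and `a (n + 1)` is the least `m > a n` for which
`{a 0, ..., a n, m}` is a Sidon set. -/
def IsGreedySidon (a : ℕ → ℕ) : Prop :=
  a 0 = 1 ∧ ∀ n, IsLeast {m : ℕ | a n < m ∧ IsSidon (insert m (a '' Set.Iic n))} (a (n + 1))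

/-- The integers `m` with `m = x + y - z` for some `x, y, z ∈ A`, all larger than `M`. -/
def TailSums (A : Set ℕ) (M : ℕ) : Set ℕ :=
  {m | ∃ x ∈ A, ∃ y ∈ A, ∃ z ∈ A, M < x ∧ M < y ∧ M < z ∧ x + y = m + z}

open Classical in
/-- The integers in `[1, N]` which are not in `TailSums A M`. -/
noncomputable def Exc (A : Set ℕ) (M N : ℕ) : Finset ℕ :=
  (Icc 1 N).filter (· ∉ TailSums A M)

/-- The positive elements of `A - A`. -/
def PosDiff (A : Set ℕ) : Set ℕ :=
  {d | 0 < d ∧ ∃ x ∈ A, ∃ y ∈ A, d + y = x}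

/-- The limit points of `φ (a n)`, `n → ∞`. -/
def Lim {K : Type*} [AddCommGroup K] [TopologicalSpace K] (a : ℕ → ℕ) (φ : ℤ →+ K) : Set K :=
  {l | MapClusterPt l atTop fun n => φ (a n)}

/-- The limit points of `φ d` for the positive elements `d` of `A - A`, `d → ∞`. -/
def DiffLim {K : Type*} [AddCommGroup K] [TopologicalSpace K] (A : Set ℕ) (φ : ℤ →+ K) : Set K :=
  {l | ∀ U ∈ nhds l, ∀ B : ℕ, ∃ d ∈ PosDiff A, B < d ∧ φ d ∈ U}

/-- The homomorphism `n ↦ n α` modulo `1`. -/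
noncomputable def rot (α : ℝ) : ℤ →+ AddCircle (1 : ℝ) :=
  zmultiplesHom (AddCircle (1 : ℝ)) (α : AddCircle (1 : ℝ))

end Pool.Agent.MP_252f0c_nt_h71
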