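import Pool.Agent.Lib.MP_252f0c_nt_h71.Defs

/-!
# The number of residue classes of the difference set
-/

set_option autoImplicit false

namespace Pool.Agent.MP_252f0c_nt_h71

/-- The number of the residue classes modulo `q` which contain infinitely many positive elements of
`A - A`. -/
noncomputable def numClasses (A : Set ℕ) (q : ℕ) : ℕ :=
  {s | s < q ∧ {d | d ∈ PosDiff A ∧ d ≡ s [MOD q]}.Infinite}.ncard

end Pool.Agent.MP_252f0c_nt_h71
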